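import Mathlib
import Pool.Agent.W732.Ud.All3

/-!
# Universal corona data: solvability on one domain, for data with one boundary singularity, is already
the uniform corona theorem on the ball

Let `D ⊂ ℂ^m` be open and `p` a boundary point near which `∂D` is of class `C²` and which is
supportable: some holomorphic map, continuous on the closure, locally biholomorphic at `p`, maps `D`
into a ball, `p` into its boundary, and points of `D` away from `p` to points away from the image of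
`p`. Every farthest point of a bounded open set (from any centre) is supportable
(`Supp.of_farthest`), so every bounded open set with `C²` boundary has such a point; for a strictly
pseudoconvex domain every boundary point is supportable, by the Henkin-Ramirez support functions.

* `result`: for all `N`, `δ` there are corona data `F_0, …, F_N` on `D`, continuous on the closure of
  `D` without the point `p`, and holomorphic maps `ψ_n` of the balls `r B`, `r < 1`, into `D`,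
  shrinking to `p`, such that every `N`-tuple of corona data with constant `δ` on the unit ball is a
  limit of `4 F_1 ∘ ψ_n, …, 4 F_N ∘ ψ_n` along a subsequence along which `F_0 ∘ ψ_n → 0`;
  consequently, if the single tuple `F` has bounded solutions near `p`, then all these data on the
  unit ball have solutions with a common bound.
* `one_domain`: every bounded open set with `C²` boundary in `ℂ^m`, for instance every strictly
  pseudoconvex domain, has a boundary point `p` such that the following is true: if the corona theorem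
  (without bounds) holds for the data which are continuous on the closure without the point `p`, then
  it holds with uniform bounds on the unit ball of `ℂ^m`.
* `thick`: the same for solutions on subsets of the ball which contain hyperbolic balls of arbitrarily
  large radius.
-/

set_option autoImplicit false

open Metric Set Filter Topology

namespace Pool.Agent.Results.MP_ca0fc2_an.OneDomain

/-- `ℂ^m` with the Euclidean norm. -/
abbrev V (m : ℕ) := EuclideanSpace ℂ (Fin m)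

/-- `N` corona data on `D`: holomorphic functions bounded by `1` with `δ ≤ ∑ |f_i|`. -/
structure Datum {m : ℕ} (N : ℕ) (δ : ℝ) (D : Set (V m)) (f : Fin N → V m → ℂ) : Prop where
  hol : ∀ i, DifferentiableOn ℂ (f i) D
  bd : ∀ i, ∀ z ∈ D, ‖f i z‖ ≤ 1
  low : ∀ z ∈ D, δ ≤ ∑ i, ‖f i z‖

/-- The boundary of `D` is of class `C²` near `p`. -/
def C2At {m : ℕ} (D : Set (V m)) (p : V m) : Prop :=
  ∃ ρ : V m → ℝ, ContDiffAt ℝ 2 ρ p ∧ fderiv ℝ ρ p ≠ 0 ∧ ∀ᶠ z in 𝓝 p, z ∈ D ↔ ρ z < 0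

/-- `p` is a supportable boundary point of `D`: some holomorphic map `Φ` on `D` and near `p`,
continuous on the closure of `D`, locally biholomorphic at `p`, maps `D` into a ball and `p` to a
point of its boundary, and the points of `D` away from `p` to points away from `Φ p`. -/
def Supp {m : ℕ} (D : Set (V m)) (p : V m) : Prop :=
  ∃ (O : Set (V m)) (Φ : V m → V m) (Φ' : V m ≃L[ℂ] V m) (c : V m), IsOpen O ∧ p ∈ O ∧
    DifferentiableOn ℂ Φ (D ∪ O) ∧ ContinuousOn Φ (closure D) ∧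
    HasFDerivAt Φ (Φ' : V m →L[ℂ] V m) p ∧ Φ p ≠ c ∧ MapsTo Φ D (ball c ‖Φ p - c‖) ∧
    ∀ O' ∈ 𝓝 p, ∃ η : ℝ, 0 < η ∧ ∀ z ∈ D, z ∉ O' → η ≤ ‖Φ z - Φ p‖

/-- Farthest points are supportable. -/
theorem Supp.of_farthest {m : ℕ} (D : Set (V m)) (c p : V m) (hD : D ⊆ ball c ‖p - c‖)
    (hpc : p ≠ c) : Supp D p :=
  Pool.Agent.W732.Ud.suppc_far D c p hD hpc

/-- **Universal corona data.** -/
theorem result (m N : ℕ) (δ : ℝ) (hδ : 0 < δ) (D : Set (V m)) (p : V m) (hD : IsOpen D)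
    (hp : p ∈ closure D) (h2 : C2At D p) (hs : Supp D p) :
    ∃ (F : Fin (N + 1) → V m → ℂ) (ψ : ℕ → V m → V m),
      Datum (N + 1) (min (1 / 2) (δ / 8)) D F ∧
      (∀ i, ContinuousOn (F i) (closure D \ {p})) ∧
      (∀ r : ℝ, r < 1 → ∀ O ∈ 𝓝 p, ∀ᶠ n in atTop, DifferentiableOn ℂ (ψ n) (ball 0 r) ∧
        MapsTo (ψ n) (ball 0 r) (D ∩ O)) ∧
      (∀ f : Fin N → V m → ℂ, Datum N δ (ball 0 1) f → ∃ s : ℕ → ℕ, StrictMono s ∧
        ∀ r : ℝ, r < 1 →
          TendstoUniformlyOn (fun n x => F 0 (ψ (s n) x)) 0 atTop (ball 0 r) ∧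
          ∀ i : Fin N,
            TendstoUniformlyOn (fun n x => 4 * F i.succ (ψ (s n) x)) (f i) atTop (ball 0 r)) ∧
      ((∃ O ∈ 𝓝 p, ∃ g : Fin (N + 1) → V m → ℂ, (∀ i, DifferentiableOn ℂ (g i) (D ∩ O)) ∧
          (∃ M : ℝ, ∀ i, ∀ z ∈ D ∩ O, ‖g i z‖ ≤ M) ∧
          ∃ c : ℝ, 0 < c ∧ ∀ z ∈ D ∩ O, c ≤ ‖∑ i, F i z * g i z‖) →
        ∃ C : ℝ, ∀ f : Fin N → V m → ℂ, Datum N δ (ball 0 1) f →
          ∃ g : Fin N → V m → ℂ, (∀ i, DifferentiableOn ℂ (g i) (ball 0 1)) ∧
            (∀ i, ∀ z ∈ ball (0 : V m) 1, ‖g i z‖ ≤ C) ∧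
            ∀ z ∈ ball (0 : V m) 1, ∑ i, f i z * g i z = 1) := by
  obtain ⟨F, ψ, hF, hc, h1, h2, h3⟩ := Pool.Agent.W732.Ud.domPc Pool.Agent.W732.Ud.t_udc
    Pool.Agent.W732.Ud.t_lim Pool.Agent.W732.Ud.t_geoPc D p hD hp h2 hs N δ hδ
  refine ⟨F, ψ, ⟨hF.hol, hF.bd, hF.low⟩, hc, h1, fun f hf => h2 f ⟨hf.hol, hf.bd, hf.low⟩,
    fun h => ?_⟩
  obtain ⟨C, hC⟩ := h3 h
  exact ⟨C, fun f hf => hC f ⟨hf.hol, hf.bd, hf.low⟩⟩

/-- **One domain, one boundary singularity.** If the corona theorem, without bounds, holds on one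
bounded open set with `C²` boundary for the data which are continuous up to the boundary except at a
suitable boundary point `p`, then it holds with uniform bounds on the unit ball. -/
theorem one_domain (m : ℕ) (hm : 0 < m) (D : Set (V m)) (hD : IsOpen D)
    (hb : Bornology.IsBounded D) (hne : D.Nonempty) (h2 : ∀ p ∈ frontier D, C2At D p) :
    ∃ p ∈ frontier D,
      (∀ (N : ℕ) (δ : ℝ) (F : Fin N → V m → ℂ), 0 < δ → Datum N δ D F →
        (∀ i, ContinuousOn (F i) (closure D \ {p})) →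
        ∃ g : Fin N → V m → ℂ, (∀ i, DifferentiableOn ℂ (g i) D) ∧
          (∃ M : ℝ, ∀ i, ∀ z ∈ D, ‖g i z‖ ≤ M) ∧ ∀ z ∈ D, ∑ i, F i z * g i z = 1) →
      ∀ (N : ℕ) (δ : ℝ), 0 < δ → ∃ C : ℝ, ∀ f : Fin N → V m → ℂ, Datum N δ (ball 0 1) f →
        ∃ g : Fin N → V m → ℂ, (∀ i, DifferentiableOn ℂ (g i) (ball 0 1)) ∧
          (∀ i, ∀ z ∈ ball (0 : V m) 1, ‖g i z‖ ≤ C) ∧
          ∀ z ∈ ball (0 : V m) 1, ∑ i, f i z * g i z = 1 := by
  obtain ⟨p, hp, h⟩ := Pool.Agent.W732.Ud.one_domainc Pool.Agent.W732.Ud.t_udc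
    Pool.Agent.W732.Ud.t_lim Pool.Agent.W732.Ud.t_geoPc hm D hD hb hne h2
  refine ⟨p, hp, fun hsol N δ hδ => ?_⟩
  obtain ⟨C, hC⟩ := h (fun N δ F hδ hF hc => hsol N δ F hδ ⟨hF.hol, hF.bd, hF.low⟩ hc) N δ hδ
  exact ⟨C, fun f hf => hC f ⟨hf.hol, hf.bd, hf.low⟩⟩

/-- The automorphism of the ball (`‖p‖ = 1`, `|a| < 1`) which translates the complex geodesic
through `0` and `p`. -/
noncomputable def mv {m : ℕ} (p : V m) (a : ℂ) (z : V m) : V m :=
  (1 / (1 + starRingEnd ℂ a * inner ℂ p z)) •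
    (((inner ℂ p z : ℂ) + a) • p + ((√(1 - ‖a‖ ^ 2) : ℝ) : ℂ) • (z - (inner ℂ p z : ℂ) • p))

/-- **Thick subsets of the ball.** If `X` contains hyperbolic balls of arbitrarily large radius, then
one tuple of corona data on the ball has the property: if it has bounded solutions on `X`, then all
corona data (`N`, `δ`) on the ball have solutions with a common bound. -/
theorem thick (m N : ℕ) (δ : ℝ) (hδ : 0 < δ) (X : Set (V m)) (hX : IsOpen X)
    (hX1 : X ⊆ ball 0 1) (ht : ∀ r : ℝ, r < 1 → ∃ (p : V m) (a : ℂ), ‖p‖ = 1 ∧ ‖a‖ < 1 ∧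
      MapsTo (mv p a) (ball 0 r) X) :
    ∃ F : Fin (N + 1) → V m → ℂ, Datum (N + 1) (min (1 / 2) (δ / 8)) (ball 0 1) F ∧
      ((∃ g : Fin (N + 1) → V m → ℂ, (∀ i, DifferentiableOn ℂ (g i) X) ∧
          (∃ M : ℝ, ∀ i, ∀ z ∈ X, ‖g i z‖ ≤ M) ∧
          ∃ c : ℝ, 0 < c ∧ ∀ z ∈ X, c ≤ ‖∑ i, F i z * g i z‖) →
        ∃ C : ℝ, ∀ f : Fin N → V m → ℂ, Datum N δ (ball 0 1) f →
          ∃ g : Fin N → V m → ℂ, (∀ i, DifferentiableOn ℂ (g i) (ball 0 1)) ∧
            (∀ i, ∀ z ∈ ball (0 : V m) 1, ‖g i z‖ ≤ C) ∧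
            ∀ z ∈ ball (0 : V m) 1, ∑ i, f i z * g i z = 1) := by
  obtain ⟨F, hF, h3⟩ := Pool.Agent.W732.Ud.thick Pool.Agent.W732.Ud.t_ud
    Pool.Agent.W732.Ud.t_lim Pool.Agent.W732.Ud.t_bl2 X hX hX1 ht N δ hδ
  refine ⟨F, ⟨hF.hol, hF.bd, hF.low⟩, fun h => ?_⟩
  obtain ⟨C, hC⟩ := h3 h
  exact ⟨C, fun f hf => hC f ⟨hf.hol, hf.bd, hf.low⟩⟩

end Pool.Agent.Results.MP_ca0fc2_an.OneDomain
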