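import Mathlib
import Pool.Agent.W732.Cor.All

/-!
# The corona theorem on the ball for any number of functions with transversally tame singularities
along circles, and one arbitrary function

Let `B` be the unit ball of `ℂ^m`. For a point `p` of the sphere and `|a| < 1` let `mv p a` be the
automorphism of `B` that translates the complex geodesic through `0` and `p`. A bounded holomorphic
function `h` is called scaled continuous along the circle `{e^{iθ} p}` (`SC p h`) if the functions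
`h ∘ mv p a` (all `|a| < 1`) are equicontinuous at the points of the sphere orthogonal to `p`.
Examples are all `h(⟨p, z⟩)` and all `H(⟨p, z⟩ p + t (z - ⟨p, z⟩ p))` with `t < 1` and an arbitrary
bounded holomorphic function `H`.

* `result`: the corona problem is solvable for data `f_1, …, f_N` (any number) if near each boundary
  point `p` one of them is arbitrary and the other ones are asymptotic at `p` to functions `h` with
  `SC p h`.
* `algebra`: in particular for data in the algebra generated by the ball algebra and all functions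
  `H(⟨a, z⟩ a + t (z - ⟨a, z⟩ a))`, `|a| = 1`, `t < 1`, `H ∈ H^∞(B)`, and one arbitrary function.
* `partial_dilations`: with uniform constants, for data `F_i(⟨p, z⟩ p + t (z - ⟨p, z⟩ p))`, `F_i`
  arbitrary, `t < 1`, and one arbitrary function `G`. For `t = 0` and `G = 0` this is
  Carleson's theorem, for `t = 1` the open problem.
* `uniform`: the same for functions with a common modulus of scaled continuity.

Proof: slice localisation (`Pool.Agent.W732.Cor.All.t_ball`): data on the ball are solvable as soon as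
they are solvable, with uniform bounds, after adding one function `(⟨p,z⟩ - a)/(1 - conj a ⟨p,z⟩)`;
the latter is shown with characters of the algebra of bounded sequences in `H^∞(B)`.
-/

set_option autoImplicit false

open Metric Set Filter Topology

namespace Pool.Agent.Results.MP_ca0fc2_an.ScaledContinuity

/-- `ℂ^m` with the Euclidean norm. -/
abbrev V (m : ℕ) := EuclideanSpace ℂ (Fin m)

/-- The automorphism of the ball (`‖p‖ = 1`, `|a| < 1`) which translates the complex geodesic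
through `0` and `p`: with `x = ⟨p, z⟩`, `z = x p + y`, it is
`((x + a) p + √(1 - |a|²) y) / (1 + conj a x)`. -/
noncomputable def mv {m : ℕ} (p : V m) (a : ℂ) (z : V m) : V m :=
  (1 / (1 + starRingEnd ℂ a * inner ℂ p z)) •
    (((inner ℂ p z : ℂ) + a) • p + ((√(1 - ‖a‖ ^ 2) : ℝ) : ℂ) • (z - (inner ℂ p z : ℂ) • p))

/-- The map `z ↦ ⟨p, z⟩ p + t (z - ⟨p, z⟩ p)`. -/
noncomputable def tau {m : ℕ} (p : V m) (t : ℝ) (z : V m) : V m :=
  (inner ℂ p z : ℂ) • p + (t : ℂ) • (z - (inner ℂ p z : ℂ) • p)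

/-- Scaled continuity along the circle `{e^{iθ} p}`: the functions `f ∘ mv p a`, `|a| < 1`,
are equicontinuous at all points `q` of the sphere which are orthogonal to `p`. -/
def SC {m : ℕ} (p : V m) (f : V m → ℂ) : Prop :=
  ∀ q : V m, ‖q‖ = 1 → (inner ℂ p q : ℂ) = 0 → ∀ ε : ℝ, 0 < ε → ∃ r : ℝ, 0 < r ∧
    ∀ a ∈ ball (0 : ℂ) 1, ∀ z ∈ ball (0 : V m) 1, ∀ w ∈ ball (0 : V m) 1,
      ‖z - q‖ < r → ‖w - q‖ < r → ‖f (mv p a z) - f (mv p a w)‖ ≤ ε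

/-- **Corona theorem on the ball for any number of functions which at every boundary point, with one
exception, are asymptotic to functions that are scaled continuous along the circle through this
point.** -/
theorem result (m N : ℕ) (f : Fin N → V m → ℂ)
    (hd : ∀ j, DifferentiableOn ℂ (f j) (ball 0 1))
    (hb : ∀ j, ∃ M : ℝ, ∀ z ∈ ball (0 : V m) 1, ‖f j z‖ ≤ M)
    (hz : ∀ z ∈ ball (0 : V m) 1, ∃ j, f j z ≠ 0)
    (hp : ∀ p : V m, ‖p‖ = 1 → ∃ (k : Fin N) (S : Finset (Fin N)) (c : ℝ), 0 < c ∧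
      (∀ᶠ z in 𝓝[ball 0 1] p, c ≤ ‖f k z‖ + ∑ j ∈ S, ‖f j z‖) ∧
      ∀ j ∈ S, ∃ h : V m → ℂ, DifferentiableOn ℂ h (ball 0 1) ∧
        (∃ M : ℝ, ∀ z ∈ ball (0 : V m) 1, ‖h z‖ ≤ M) ∧ SC p h ∧
        Tendsto (fun z => f j z - h z) (𝓝[ball 0 1] p) (𝓝 0)) :
    ∃ g : Fin N → V m → ℂ, (∀ j, DifferentiableOn ℂ (g j) (ball 0 1)) ∧
      (∃ C : ℝ, ∀ j, ∀ z ∈ ball (0 : V m) 1, ‖g j z‖ ≤ C) ∧
      ∀ z ∈ ball (0 : V m) 1, ∑ j, f j z * g j z = 1 :=
  Pool.Agent.W732.Cor.t_fin m N f hd hb hz hp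

/-- Example: data in the algebra generated by the ball algebra and all functions
`H(⟨a, z⟩ a + t (z - ⟨a, z⟩ a))` (all directions `a`, all `t < 1`, all `H ∈ H^∞(B)`), and one
arbitrary function. -/
theorem algebra (m N : ℕ) (f : Fin N → V m → ℂ) (G : V m → ℂ)
    (hf : ∀ j, f j ∈ Algebra.adjoin ℂ
      ({f : V m → ℂ | ContinuousOn f (closedBall 0 1) ∧ DifferentiableOn ℂ f (ball 0 1)} ∪
      {f : V m → ℂ | ∃ (a : V m) (t : ℝ) (H : V m → ℂ), ‖a‖ = 1 ∧ 0 ≤ t ∧ t < 1 ∧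
        DifferentiableOn ℂ H (ball 0 1) ∧ (∃ M : ℝ, ∀ z ∈ ball (0 : V m) 1, ‖H z‖ ≤ M) ∧
        f = fun z => H (tau a t z)}))
    (hG : DifferentiableOn ℂ G (ball 0 1))
    (hGb : ∃ M : ℝ, ∀ z ∈ ball (0 : V m) 1, ‖G z‖ ≤ M)
    (δ : ℝ) (hδ : 0 < δ) (hc : ∀ z ∈ ball (0 : V m) 1, δ ≤ ∑ j, ‖f j z‖ + ‖G z‖) :
    ∃ (g : Fin N → V m → ℂ) (g₀ : V m → ℂ),
      (∀ j, DifferentiableOn ℂ (g j) (ball 0 1)) ∧ DifferentiableOn ℂ g₀ (ball 0 1) ∧
      (∃ C : ℝ, (∀ j, ∀ z ∈ ball (0 : V m) 1, ‖g j z‖ ≤ C) ∧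
        ∀ z ∈ ball (0 : V m) 1, ‖g₀ z‖ ≤ C) ∧
      ∀ z ∈ ball (0 : V m) 1, ∑ j, f j z * g j z + G z * g₀ z = 1 :=
  Pool.Agent.W732.Cor.corona_AS Pool.Agent.W732.Cor.t_fin N f G
    (fun j => Pool.Agent.W732.Cor.AS_adjoin Pool.Agent.W732.Cor.t_sc1 Pool.Agent.W732.Cor.t_sc2
      Pool.Agent.W732.Cor.t_sc3 (hf j)) hG hGb δ hδ hc

/-- Uniform version: functions with a common modulus of scaled continuity `r`. -/
theorem uniform (m : ℕ) (p : V m) (hp : ‖p‖ = 1) (N : ℕ) (δ : ℝ) (hδ : 0 < δ)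
    (r : V m → ℝ → ℝ) (hr : ∀ q ε, 0 < ε → 0 < r q ε) :
    ∃ C : ℝ, ∀ (F : Fin N → V m → ℂ) (G : V m → ℂ),
      (∀ i, DifferentiableOn ℂ (F i) (ball 0 1)) → DifferentiableOn ℂ G (ball 0 1) →
      (∀ i, ∀ z ∈ ball (0 : V m) 1, ‖F i z‖ ≤ 1) → (∀ z ∈ ball (0 : V m) 1, ‖G z‖ ≤ 1) →
      (∀ z ∈ ball (0 : V m) 1, δ ≤ ∑ i, ‖F i z‖ + ‖G z‖) →
      (∀ i, ∀ q : V m, ‖q‖ = 1 → (inner ℂ p q : ℂ) = 0 → ∀ ε : ℝ, 0 < ε →
        ∀ a ∈ ball (0 : ℂ) 1, ∀ z ∈ ball (0 : V m) 1, ∀ w ∈ ball (0 : V m) 1,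
          ‖z - q‖ < r q ε → ‖w - q‖ < r q ε → ‖F i (mv p a z) - F i (mv p a w)‖ ≤ ε) →
      ∃ (g : Fin N → V m → ℂ) (g₀ : V m → ℂ),
        (∀ i, DifferentiableOn ℂ (g i) (ball 0 1)) ∧ DifferentiableOn ℂ g₀ (ball 0 1) ∧
        (∀ i, ∀ z ∈ ball (0 : V m) 1, ‖g i z‖ ≤ C) ∧ (∀ z ∈ ball (0 : V m) 1, ‖g₀ z‖ ≤ C) ∧
        ∀ z ∈ ball (0 : V m) 1, ∑ i, F i z * g i z + G z * g₀ z = 1 :=
  Pool.Agent.W732.Cor.t_uni m p hp N δ hδ r hr

/-- Uniform version for partial dilations: `F_i(⟨p, z⟩ p + t (z - ⟨p, z⟩ p))` with arbitrary bounded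
holomorphic `F_i` and `t < 1`, and one arbitrary function `G`. -/
theorem partial_dilations (m : ℕ) (p : V m) (hp : ‖p‖ = 1) (N : ℕ) (δ : ℝ) (hδ : 0 < δ) (t : ℝ)
    (ht0 : 0 ≤ t) (ht1 : t < 1) :
    ∃ C : ℝ, ∀ (F : Fin N → V m → ℂ) (G : V m → ℂ),
      (∀ i, DifferentiableOn ℂ (F i) (ball 0 1)) → DifferentiableOn ℂ G (ball 0 1) →
      (∀ i, ∀ z ∈ ball (0 : V m) 1, ‖F i z‖ ≤ 1) → (∀ z ∈ ball (0 : V m) 1, ‖G z‖ ≤ 1) →
      (∀ z ∈ ball (0 : V m) 1, δ ≤ ∑ i, ‖F i (tau p t z)‖ + ‖G z‖) →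
      ∃ (g : Fin N → V m → ℂ) (g₀ : V m → ℂ),
        (∀ i, DifferentiableOn ℂ (g i) (ball 0 1)) ∧ DifferentiableOn ℂ g₀ (ball 0 1) ∧
        (∀ i, ∀ z ∈ ball (0 : V m) 1, ‖g i z‖ ≤ C) ∧ (∀ z ∈ ball (0 : V m) 1, ‖g₀ z‖ ≤ C) ∧
        ∀ z ∈ ball (0 : V m) 1, ∑ i, F i (tau p t z) * g i z + G z * g₀ z = 1 :=
  Pool.Agent.W732.Cor.uniform_tau Pool.Agent.W732.Cor.t_uni Pool.Agent.W732.Cor.t_sc2 p hp N δ hδ
    t ht0 ht1

end Pool.Agent.Results.MP_ca0fc2_an.ScaledContinuity
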