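import Mathlib
import Pool.Agent.W732.Cor.All
import Pool.Agent.W806.Cor.DU

/-!
# Slice localisation for arbitrary corona data

On the unit ball of `ℂ^(n+1)`, and more generally on the domains
`D_u = {|z|² + ∑ exp (2 u_j (z)) |y_j|² < 1} ⊂ ℂ × ℂⁿ` with convex `u_j` (strictly pseudoconvex if the
`u_j` are smooth up to the boundary of the disc), arbitrary data `f_1, …, f_N ∈ H^∞`, `|f_j| ≤ 1`,
have bounded solutions of `∑ f_j h_j = 1` as soon as they have bounded solutions near each slice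
`{z = a}`, uniformly in `a`, i.e. as soon as for every `a` in the disc the data
`f_1, …, f_N, (z - a)/(1 - conj a z)` are solvable with a bound independent of `a`. The new bound
depends only on `N` and the old bound, not on the dimension, the domain or the data. (In dimension
one this is Carleson's theorem.)

* `result`: the domains `D_u`;
* `ball_localisation`: the ball, slices `⟨p, z⟩ = a`;
* `ball_reduction`: the quantitative corona theorem for the ball is equivalent to: for all corona data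
  `f_1, …, f_N` the data `f_1, …, f_N, ⟨p, z⟩` are solvable with bounds.

Proof. The local solutions are glued with a partition of unity in the variable `z`; the difference
between `1` and the solution given by Carleson's theorem on the disc `{y = 0}` vanishes for `y = 0`,
and for such functions the solution operator of `∂V/∂z̄ = q` which transports `q` along the holomorphic
retractions onto the slices is bounded for all `q = O(1/(1-|z|))`.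
-/

set_option autoImplicit false

open Metric Set Filter Topology

namespace Pool.Agent.Results.MP_ca0fc2_an.SliceLocalisation

/-- The domain `|z|² + ∑ exp (2 u_j (z)) |y_j|² < 1`. -/
def Du {n : ℕ} (u : Fin n → ℂ → ℝ) : Set (ℂ × (Fin n → ℂ)) :=
  {p | ‖p.1‖ ^ 2 + ∑ j, Real.exp (2 * u j p.1) * ‖p.2 j‖ ^ 2 < 1}

/-- **Slice localisation on the domains `D_u`.** -/
theorem result (N : ℕ) (C : ℝ) : ∃ C' : ℝ, ∀ (n : ℕ) (u : Fin n → ℂ → ℝ),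
    (∀ j, ConvexOn ℝ (ball (0 : ℂ) 1) (u j)) → (∀ j, ContDiffOn ℝ 1 (u j) (ball (0 : ℂ) 1)) →
    ∀ f : Fin N → ℂ × (Fin n → ℂ) → ℂ, (∀ i, DifferentiableOn ℂ (f i) (Du u)) →
      (∀ i, ∀ p ∈ Du u, ‖f i p‖ ≤ 1) →
      (∀ a ∈ ball (0 : ℂ) 1, ∃ (g : Fin N → ℂ × (Fin n → ℂ) → ℂ) (g₀ : ℂ × (Fin n → ℂ) → ℂ),
        (∀ i, DifferentiableOn ℂ (g i) (Du u)) ∧ DifferentiableOn ℂ g₀ (Du u) ∧
        (∀ i, ∀ p ∈ Du u, ‖g i p‖ ≤ C) ∧ (∀ p ∈ Du u, ‖g₀ p‖ ≤ C) ∧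
        ∀ p ∈ Du u, ∑ i, f i p * g i p + (p.1 - a) / (1 - starRingEnd ℂ a * p.1) * g₀ p = 1) →
      ∃ h : Fin N → ℂ × (Fin n → ℂ) → ℂ, (∀ i, DifferentiableOn ℂ (h i) (Du u)) ∧
        (∀ i, ∀ p ∈ Du u, ‖h i p‖ ≤ C') ∧ ∀ p ∈ Du u, ∑ i, f i p * h i p = 1 := by
  obtain ⟨C', hC'⟩ := Pool.Agent.W732.Cor.t_disc N C
  refine ⟨C', fun n u hu hud f hf hfb hloc => ?_⟩
  obtain ⟨Λ, hΛ⟩ := Pool.Agent.W806.Cor.main n u hu hud
  exact hC' (Fin n → ℂ) (Du u) Λ hΛ f hf hfb hloc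

/-- Slice localisation on the unit ball of `ℂ^m`, slices orthogonal to any unit vector `p`. -/
theorem ball_localisation (N : ℕ) (C : ℝ) : ∃ C' : ℝ, ∀ (m : ℕ) (p : EuclideanSpace ℂ (Fin m)),
    ‖p‖ = 1 → ∀ f : Fin N → EuclideanSpace ℂ (Fin m) → ℂ,
      (∀ i, DifferentiableOn ℂ (f i) (ball 0 1)) →
      (∀ i, ∀ z ∈ ball (0 : EuclideanSpace ℂ (Fin m)) 1, ‖f i z‖ ≤ 1) →
      (∀ a ∈ ball (0 : ℂ) 1, ∃ (g : Fin N → EuclideanSpace ℂ (Fin m) → ℂ)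
        (g₀ : EuclideanSpace ℂ (Fin m) → ℂ),
        (∀ i, DifferentiableOn ℂ (g i) (ball 0 1)) ∧ DifferentiableOn ℂ g₀ (ball 0 1) ∧
        (∀ i, ∀ z ∈ ball (0 : EuclideanSpace ℂ (Fin m)) 1, ‖g i z‖ ≤ C) ∧
        (∀ z ∈ ball (0 : EuclideanSpace ℂ (Fin m)) 1, ‖g₀ z‖ ≤ C) ∧
        ∀ z ∈ ball (0 : EuclideanSpace ℂ (Fin m)) 1, ∑ i, f i z * g i z +
          ((inner ℂ p z : ℂ) - a) / (1 - starRingEnd ℂ a * inner ℂ p z) * g₀ z = 1) →
      ∃ h : Fin N → EuclideanSpace ℂ (Fin m) → ℂ, (∀ i, DifferentiableOn ℂ (h i) (ball 0 1)) ∧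
        (∀ i, ∀ z ∈ ball (0 : EuclideanSpace ℂ (Fin m)) 1, ‖h i z‖ ≤ C') ∧
        ∀ z ∈ ball (0 : EuclideanSpace ℂ (Fin m)) 1, ∑ i, f i z * h i z = 1 :=
  Pool.Agent.W732.Cor.t_ball N C

/-- The quantitative corona theorem for the ball is equivalent to the solvability with bounds, for
all corona data `f_1, …, f_N`, of the data `f_1, …, f_N, ⟨p, z⟩`. -/
theorem ball_reduction (m : ℕ) (p : EuclideanSpace ℂ (Fin m)) (hp : ‖p‖ = 1) :
    (∀ (N : ℕ) (δ : ℝ), 0 < δ → ∃ C : ℝ, ∀ f : Fin N → EuclideanSpace ℂ (Fin m) → ℂ,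
      (∀ i, DifferentiableOn ℂ (f i) (ball 0 1)) →
      (∀ i, ∀ z ∈ ball (0 : EuclideanSpace ℂ (Fin m)) 1, ‖f i z‖ ≤ 1) →
      (∀ z ∈ ball (0 : EuclideanSpace ℂ (Fin m)) 1, δ ≤ ∑ i, ‖f i z‖) →
      ∃ g : Fin N → EuclideanSpace ℂ (Fin m) → ℂ,
        (∀ i, DifferentiableOn ℂ (g i) (ball 0 1)) ∧
        (∀ i, ∀ z ∈ ball (0 : EuclideanSpace ℂ (Fin m)) 1, ‖g i z‖ ≤ C) ∧
        ∀ z ∈ ball (0 : EuclideanSpace ℂ (Fin m)) 1, ∑ i, f i z * g i z = 1) ↔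
    (∀ (N : ℕ) (δ : ℝ), 0 < δ → ∃ C : ℝ, ∀ f : Fin N → EuclideanSpace ℂ (Fin m) → ℂ,
      (∀ i, DifferentiableOn ℂ (f i) (ball 0 1)) →
      (∀ i, ∀ z ∈ ball (0 : EuclideanSpace ℂ (Fin m)) 1, ‖f i z‖ ≤ 1) →
      (∀ z ∈ ball (0 : EuclideanSpace ℂ (Fin m)) 1, δ ≤ ∑ i, ‖f i z‖) →
      ∃ (g : Fin N → EuclideanSpace ℂ (Fin m) → ℂ) (g₀ : EuclideanSpace ℂ (Fin m) → ℂ),
        (∀ i, DifferentiableOn ℂ (g i) (ball 0 1)) ∧ DifferentiableOn ℂ g₀ (ball 0 1) ∧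
        (∀ i, ∀ z ∈ ball (0 : EuclideanSpace ℂ (Fin m)) 1, ‖g i z‖ ≤ C) ∧
        (∀ z ∈ ball (0 : EuclideanSpace ℂ (Fin m)) 1, ‖g₀ z‖ ≤ C) ∧
        ∀ z ∈ ball (0 : EuclideanSpace ℂ (Fin m)) 1,
          ∑ i, f i z * g i z + inner ℂ p z * g₀ z = 1) :=
  Pool.Agent.W732.Cor.equiv_ball Pool.Agent.W732.Cor.t_ball Pool.Agent.W732.Cor.t_mv p hp

end Pool.Agent.Results.MP_ca0fc2_an.SliceLocalisation
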