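import Mathlib
import Pool.Agent.W732.Ud.All3

/-!
# Arbitrary corona data on the ball: solutions on thin sets

A subset `X` of the unit ball `B` of `ℂ^m` is called thin if, near every boundary point `p` of `B`, it
lies within a bounded hyperbolic distance of the complex geodesic `B ∩ ℂ p`. Finite unions of
neighbourhoods of hyperbolic radius `R` of complex geodesics with different end points, of
nontangential (Stolz) regions, of curves in them and of compact sets are examples (up to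
automorphisms).

For arbitrary corona data `f_1, …, f_N` on `B`, a thin set `X` and a number `l` there are bounded
holomorphic functions `g_1, …, g_N` on all of `B` with `|∑ f_i g_i - 1| ≤ ε` on `l` given images
`ψ_1 X, …, ψ_l X` of `X` under automorphisms of the ball; the bound depends only on `m`, `N`, `δ`,
`l`, `ε` and `X`, not on the data nor on the automorphisms.

By `OneDomain.thick` the same statement for a set which contains hyperbolic balls of arbitrarily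
large radius is equivalent to the corona theorem with uniform bounds.
-/

set_option autoImplicit false

open Metric Set Filter Topology

namespace Pool.Agent.Results.MP_ca0fc2_an.ThinSets

/-- `ℂ^m` with the Euclidean norm. -/
abbrev V (m : ℕ) := EuclideanSpace ℂ (Fin m)

/-- `X` is thin: for every boundary point `p` there is `ρ < 1` such that near `p` the set `X` lies in
the neighbourhood of hyperbolic radius `artanh ρ` of the geodesic `{x p : |x| < 1}`. -/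
def Thin {m : ℕ} (X : Set (V m)) : Prop :=
  X ⊆ ball 0 1 ∧ ∀ p : V m, ‖p‖ = 1 → ∃ ρ : ℝ, 0 ≤ ρ ∧ ρ < 1 ∧ ∀ᶠ z in 𝓝 p, z ∈ X →
    ‖z - (inner ℂ p z : ℂ) • p‖ ^ 2 ≤ ρ ^ 2 * (1 - ‖(inner ℂ p z : ℂ)‖ ^ 2)

/-- **Solutions on thin sets** (`ψ j` are automorphisms of the ball with inverses `φ j`). -/
theorem result (m N l : ℕ) (δ ε : ℝ) (X : Set (V m)) (hδ : 0 < δ) (hε : 0 < ε) (hX : Thin X) :
    ∃ C : ℝ, ∀ ψ φ : Fin l → V m → V m,
    (∀ j, DifferentiableOn ℂ (ψ j) (ball 0 1) ∧ DifferentiableOn ℂ (φ j) (ball 0 1) ∧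
      MapsTo (ψ j) (ball 0 1) (ball 0 1) ∧ MapsTo (φ j) (ball 0 1) (ball 0 1) ∧
      (∀ z ∈ ball (0 : V m) 1, φ j (ψ j z) = z) ∧ ∀ z ∈ ball (0 : V m) 1, ψ j (φ j z) = z) →
    ∀ f : Fin N → V m → ℂ, (∀ i, DifferentiableOn ℂ (f i) (ball 0 1)) →
      (∀ i, ∀ z ∈ ball (0 : V m) 1, ‖f i z‖ ≤ 1) →
      (∀ z ∈ ball (0 : V m) 1, δ ≤ ∑ i, ‖f i z‖) →
      ∃ g : Fin N → V m → ℂ, (∀ i, DifferentiableOn ℂ (g i) (ball 0 1)) ∧
        (∀ i, ∀ z ∈ ball (0 : V m) 1, ‖g i z‖ ≤ C) ∧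
        ∀ j, ∀ z ∈ X, ‖∑ i, f i (ψ j z) * g i (ψ j z) - 1‖ ≤ ε := by
  obtain ⟨C, hC⟩ := Pool.Agent.W732.Ud.t_thin4 m N l δ ε X hδ hε hX
  exact ⟨C, fun ψ φ h f hf hfb hfl => hC ψ φ h f ⟨hf, hfb, hfl⟩⟩

/-- Sets which approach the sphere in Koranyi regions are thin. -/
theorem thin_koranyi {m : ℕ} (X : Set (V m)) (hX : X ⊆ ball 0 1)
    (h : ∀ p : V m, ‖p‖ = 1 → ∃ α : ℝ, ∀ᶠ z in 𝓝 p, z ∈ X →
      ‖1 - (inner ℂ p z : ℂ)‖ ≤ α * (1 - ‖z‖ ^ 2)) : Thin X := by
  refine ⟨hX, fun p hp => ?_⟩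
  obtain ⟨α, hα⟩ := h p hp
  have hA : 0 < max α 1 := lt_max_of_lt_right one_pos
  refine ⟨√(1 - 1 / (2 * max α 1)), Real.sqrt_nonneg _, ?_, ?_⟩
  · rw [Real.sqrt_lt' one_pos]
    have : 0 < 1 / (2 * max α 1) := by positivity
    linarith
  · filter_upwards [hα] with z hz hzX
    have h1 := hz hzX
    have hz1 : ‖z‖ < 1 := by simpa using hX hzX
    have hin := Pool.Agent.W12.Ud.Thin4.inner_lt hp hz1
    have hpy := Pool.Agent.W12.Ud.Thin4.pyth hp z
    have h2 : (0 : ℝ) ≤ 1 - 1 / (2 * max α 1) := by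
      have : 1 / (2 * max α 1) ≤ 1 := by
        rw [div_le_one (by positivity)]
        have := le_max_right α 1
        linarith
      linarith
    rw [Real.sq_sqrt h2]
    set w : ℂ := inner ℂ p z with hw
    have h3 : ‖1 - w‖ ≤ max α 1 * (1 - ‖z‖ ^ 2) := by
      refine h1.trans (mul_le_mul_of_nonneg_right (le_max_left _ _) ?_)
      nlinarith [norm_nonneg z]
    have h4 : 1 - ‖w‖ ^ 2 ≤ 2 * ‖1 - w‖ := by
      have h5 : 1 - ‖w‖ ≤ ‖1 - w‖ := by
        have := norm_sub_norm_le (1 : ℂ) w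
        simpa using this
      nlinarith [norm_nonneg w, norm_nonneg (1 - w)]
    have h6 : (1 - ‖w‖ ^ 2) / (2 * max α 1) ≤ 1 - ‖z‖ ^ 2 := by
      rw [div_le_iff₀ (by positivity)]
      nlinarith
    have h7 : (1 - 1 / (2 * max α 1)) * (1 - ‖w‖ ^ 2) =
      (1 - ‖w‖ ^ 2) - (1 - ‖w‖ ^ 2) / (2 * max α 1) := by ring
    rw [h7]
    linarith

/-- The neighbourhood of hyperbolic radius `artanh ρ` of the geodesic `{x p : |x| < 1}` in the unit
ball, `‖p‖ = 1`. -/
def TT {m : ℕ} (p : V m) (ρ : ℝ) : Set (V m) :=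
  {z | z ∈ ball (0 : V m) 1 ∧
    ‖z - (inner ℂ p z : ℂ) • p‖ ^ 2 ≤ ρ ^ 2 * (1 - ‖(inner ℂ p z : ℂ)‖ ^ 2)}

/-- Neighbourhoods of complex geodesics through the centre are thin. -/
theorem thin_TT {m : ℕ} (p : V m) (hp : ‖p‖ = 1) (ρ : ℝ) (hρ : 0 ≤ ρ) (hρ1 : ρ < 1) :
    Thin (TT p ρ) := by
  refine ⟨fun z hz => hz.1, fun q hq => ?_⟩
  have hpy := Pool.Agent.W12.Ud.Thin4.pyth hp q
  by_cases h0 : ‖(inner ℂ p q : ℂ)‖ = 1
  · have h1 : q = (inner ℂ p q : ℂ) • p := by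
      rw [hq, h0] at hpy
      have : ‖q - (inner ℂ p q : ℂ) • p‖ = 0 := by
        have := hpy
        simp at this
        simpa using this
      exact sub_eq_zero.1 (norm_eq_zero.1 this)
    set c : ℂ := inner ℂ p q with hc
    have h2 : ∀ z : V m, (inner ℂ q z : ℂ) = starRingEnd ℂ c * inner ℂ p z := by
      intro z
      rw [h1, inner_smul_left]
    have hcc : starRingEnd ℂ c * c = 1 := by
      rw [mul_comm, Complex.mul_conj, Complex.normSq_eq_norm_sq, h0]; simp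
    refine ⟨ρ, hρ, hρ1, Eventually.of_forall fun z hz => ?_⟩
    have h3 : (inner ℂ q z : ℂ) • q = (inner ℂ p z : ℂ) • p := by
      rw [h2 z]
      conv_lhs => rw [h1]
      rw [smul_smul]
      congr 1
      calc starRingEnd ℂ c * inner ℂ p z * c = (starRingEnd ℂ c * c) * inner ℂ p z := by ring
        _ = _ := by rw [hcc, one_mul]
    have h4 : ‖(inner ℂ q z : ℂ)‖ = ‖(inner ℂ p z : ℂ)‖ := by
      rw [h2 z, norm_mul, RCLike.norm_conj, h0, one_mul]
    rw [h3, h4]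
    exact hz.2
  · refine ⟨0, le_rfl, one_pos, ?_⟩
    have hlt : ‖(inner ℂ p q : ℂ)‖ < 1 := by
      refine lt_of_le_of_ne ?_ h0
      have := norm_inner_le_norm (𝕜 := ℂ) p q
      rwa [hp, hq, one_mul] at this
    have hcont : Continuous (fun z : V m => ‖z - (inner ℂ p z : ℂ) • p‖ ^ 2 -
        ρ ^ 2 * (1 - ‖(inner ℂ p z : ℂ)‖ ^ 2)) := by fun_prop
    have hpos : 0 < ‖q - (inner ℂ p q : ℂ) • p‖ ^ 2 -
        ρ ^ 2 * (1 - ‖(inner ℂ p q : ℂ)‖ ^ 2) := by
      rw [hq] at hpy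
      have h1 : 0 < 1 - ‖(inner ℂ p q : ℂ)‖ ^ 2 := by nlinarith [norm_nonneg (inner ℂ p q : ℂ)]
      have h2 : ρ ^ 2 < 1 := by nlinarith
      nlinarith
    filter_upwards [hcont.continuousAt.eventually (lt_mem_nhds hpos)] with z hz hzX
    have := hzX.2
    exfalso
    linarith

end Pool.Agent.Results.MP_ca0fc2_an.ThinSets
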